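import Pool.Agent.PFE.StmtsE2

/-!
# Squad PFE, row FRS: the sum of two frames
-/

open scoped BigOperators

noncomputable section

namespace Pool.Agent.PFE.H53

open MulOpposite

theorem frs : FrsStmt := by
  intro R Γ W N X Ω1 Ω1' Ω2 Ω2' _ _ _ _ _ _ _ _ _ _ _ _ _ _ _ _ l G χ B q1 q2 F1 F2
  refine ⟨Ω1 ⊕ Ω2, Ω1' ⊕ Ω2', inferInstance, inferInstance, inferInstance, inferInstance, ⟨{
    deg := Sum.elim F1.deg F2.deg
    dg := ?_
    fo := ?_
    fo' := ?_
    g := Sum.elim F1.g F2.g
    gw := ?_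
    gy := ?_
    c := Sum.elim F1.c F2.c
    cw := ?_
    cy := ?_
    h := Sum.elim F1.h F2.h
    hw := ?_
    d := Sum.elim F1.d F2.d
    dw := ?_
    fr := ?_ }⟩⟩
  · rintro w (o | o)
    · exact F1.dg w o
    · exact F2.dg w o
  · rintro w (o | o) h
    · exact F1.fo w o (Sum.inl.inj h)
    · exact F2.fo w o (Sum.inr.inj h)
  · rintro w (o | o) h
    · exact F1.fo' w o (Sum.inl.inj h)
    · exact F2.fo' w o (Sum.inr.inj h)
  · rintro w (o | o)
    · exact F1.gw w o
    · exact F2.gw w o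
  · rintro (o | o)
    · exact F1.gy o
    · exact F2.gy o
  · rintro w (o | o) n
    · exact F1.cw w o n
    · exact F2.cw w o n
  · rintro (o | o) n
    · exact F1.cy o n
    · exact F2.cy o n
  · rintro w (o | o)
    · exact F1.hw w o
    · exact F2.hw w o
  · rintro w (o | o) n
    · exact F1.dw w o n
    · exact F2.dw w o n
  · intro n
    rw [Fintype.sum_sum_type, Fintype.sum_sum_type, LinearMap.add_apply, ← F1.fr n, ← F2.fr n]
    simp only [Sum.elim_inl, Sum.elim_inr]
    exact add_add_add_comm _ _ _ _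

end Pool.Agent.PFE.H53
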