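import Pool.Agent.PFE.StmtsE2

/-!
# Squad PFE, row GWF: the algebra `Γ` as a `WFS`
-/

open scoped BigOperators

noncomputable section

namespace Pool.Agent.PFE.H53

open Pool.Agent.PFD.D2b (WFS)

section

variable {R Γ W : Type} [CommRing R] [CommRing Γ] [Algebra R Γ] [CommGroup W] [Fintype W] {l : ℕ}

open Classical in
theorem co_mon (G : GY R Γ W l) (hl : 1 ≤ l) (m : ℕ) (u : W) :
    G.co (l - 1) 1 (G.y ^ m * G.om u) = if m = l - 1 ∧ u = 1 then 1 else 0 := by
  by_cases hm : m < l
  · have h1 := G.un (fun k w => if k = m ∧ w = u then 1 else 0) (l - 1) 1 (by omega)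
    have h2 : ∑ k ∈ Finset.range l, ∑ w, (if k = m ∧ w = u then (1 : R) else 0) •
        (G.y ^ k * G.om w) = G.y ^ m * G.om u := by
      rw [Finset.sum_eq_single m]
      · rw [Finset.sum_eq_single u]
        · rw [if_pos ⟨rfl, rfl⟩, one_smul]
        · intro w _ hw
          rw [if_neg (fun h => hw h.2), zero_smul]
        · intro h
          exact absurd (Finset.mem_univ u) h
      · intro k _ hk
        refine Finset.sum_eq_zero fun w _ => ?_
        rw [if_neg (fun h => hk h.1), zero_smul]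
      · intro h
        exact absurd (Finset.mem_range.2 hm) h
    rw [h2] at h1
    rw [h1]
    by_cases h : m = l - 1 ∧ u = 1
    · rw [if_pos h, if_pos ⟨h.1.symm, h.2.symm⟩]
    · rw [if_neg h, if_neg (fun h' => h ⟨h'.1.symm, h'.2.symm⟩)]
  · have h3 : G.y ^ m = 0 := by
      have h4 : m = l + (m - l) := by omega
      rw [h4, pow_add, G.yl, zero_mul]
    rw [h3, zero_mul, map_zero, if_neg (fun h => by omega)]

/-- a linear map which fixes the monomials is the identity -/
theorem lin_eq (G : GY R Γ W l) (T : Γ →ₗ[R] Γ)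
    (hT : ∀ k, k < l → ∀ v, T (G.y ^ k * G.om v) = G.y ^ k * G.om v) (x : Γ) : T x = x := by
  have h1 := congrArg T (G.ex x)
  rw [map_sum] at h1
  rw [← h1]
  conv_rhs => rw [← G.ex x]
  refine Finset.sum_congr rfl fun k hk => ?_
  rw [map_sum]
  refine Finset.sum_congr rfl fun w _ => ?_
  rw [map_smul, hT k (Finset.mem_range.1 hk)]

end

theorem gwf : GwfStmt := by
  classical
  intro R Γ W _ _ _ _ _ l G hl
  have key := co_mon G hl
  have e1 : ∀ (i : Fin l) (w : W) (k : ℕ) (v : W),
      G.om w⁻¹ * G.y ^ (l - 1 - (i : ℕ)) * (G.y ^ k * G.om v) =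
        G.y ^ (l - 1 - (i : ℕ) + k) * G.om (w⁻¹ * v) := by
    intro i w k v
    rw [pow_add, map_mul]
    ring
  have e2 : ∀ (i : Fin l) (w : W) (k : ℕ) (v : W),
      G.y ^ k * G.om v * (G.y ^ (i : ℕ) * G.om w) = G.y ^ (k + (i : ℕ)) * G.om (v * w) := by
    intro i w k v
    rw [pow_add, map_mul]
    ring
  refine ⟨{
    lam := G.co (l - 1) 1
    sym := fun x y => by rw [mul_comm]
    om := G.om
    cf := fun i => G.y ^ (i : ℕ)
    cf' := fun i => G.y ^ (l - 1 - (i : ℕ))
    h1 := ?_
    h2 := ?_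
    d1 := ?_
    d0 := ?_
    ph := fun _ => MonoidHom.id W
    phb := fun _ => Function.bijective_id
    nrm := fun i w => by
      rw [MonoidHom.id_apply, mul_comm] }, rfl, rfl, fun _ => rfl, fun _ => rfl⟩
  · -- h1
    let T : Γ →ₗ[R] Γ := ∑ i : Fin l, ∑ w : W, LinearMap.toSpanSingleton R Γ
      (G.y ^ (i : ℕ) * G.om w) ∘ₗ (G.co (l - 1) 1 ∘ₗ
        LinearMap.mulLeft R (G.om w⁻¹ * G.y ^ (l - 1 - (i : ℕ))))
    have hT : ∀ x, T x = ∑ i : Fin l, ∑ w : W,
        G.co (l - 1) 1 (G.om w⁻¹ * G.y ^ (l - 1 - (i : ℕ)) * x) • (G.y ^ (i : ℕ) * G.om w) := by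
      intro x
      simp [T, LinearMap.sum_apply, mul_assoc]
    intro x
    rw [← hT x]
    refine lin_eq G T (fun k hk v => ?_) x
    rw [hT]
    rw [Finset.sum_eq_single (⟨k, hk⟩ : Fin l)]
    · rw [Finset.sum_eq_single v]
      · rw [e1, key, if_pos ⟨by change l - 1 - k + k = l - 1; omega, inv_mul_cancel v⟩, one_smul]
      · intro w _ hw
        rw [e1, key, if_neg (fun h => hw (inv_mul_eq_one.1 h.2)), zero_smul]
      · intro h
        exact absurd (Finset.mem_univ v) h
    · intro i _ hi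
      refine Finset.sum_eq_zero fun w _ => ?_
      rw [e1, key, if_neg (fun h => hi (Fin.ext (by
        have h3 := h.1
        have h4 := i.2
        change (i : ℕ) = k
        omega))), zero_smul]
    · intro h
      exact absurd (Finset.mem_univ _) h
  · -- h2
    let T : Γ →ₗ[R] Γ := ∑ i : Fin l, ∑ w : W, LinearMap.toSpanSingleton R Γ
      (G.om w⁻¹ * G.y ^ (l - 1 - (i : ℕ))) ∘ₗ (G.co (l - 1) 1 ∘ₗ
        LinearMap.mulRight R (G.y ^ (i : ℕ) * G.om w))
    have hT : ∀ x, T x = ∑ i : Fin l, ∑ w : W,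
        G.co (l - 1) 1 (x * (G.y ^ (i : ℕ) * G.om w)) • (G.om w⁻¹ * G.y ^ (l - 1 - (i : ℕ))) := by
      intro x
      simp [T, LinearMap.sum_apply, mul_assoc]
    intro x
    rw [← hT x]
    refine lin_eq G T (fun k hk v => ?_) x
    rw [hT]
    rw [Finset.sum_eq_single (⟨l - 1 - k, by omega⟩ : Fin l)]
    · rw [Finset.sum_eq_single v⁻¹]
      · rw [e2, key, if_pos ⟨by change k + (l - 1 - k) = l - 1; omega, mul_inv_cancel v⟩,
          one_smul, inv_inv, mul_comm]
        change G.y ^ (l - 1 - (l - 1 - k)) * G.om v = _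
        have h5 : l - 1 - (l - 1 - k) = k := by omega
        rw [h5]
      · intro w _ hw
        rw [e2, key, if_neg (fun h => hw (mul_eq_one_iff_eq_inv'.1 h.2)), zero_smul]
      · intro h
        exact absurd (Finset.mem_univ _) h
    · intro i _ hi
      refine Finset.sum_eq_zero fun w _ => ?_
      rw [e2, key, if_neg (fun h => hi (Fin.ext (by
        have h3 := h.1
        have h4 := i.2
        change (i : ℕ) = l - 1 - k
        omega))), zero_smul]
    · intro h
      exact absurd (Finset.mem_univ _) h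
  · intro i w
    rw [e1, key, if_pos ⟨by have := i.2; omega, inv_mul_cancel w⟩]
  · intro i j u w h
    rw [e1, key, if_neg]
    rintro ⟨h1, h2⟩
    rcases h with h | h
    · refine h (Fin.ext ?_)
      have h3 := i.2
      have h4 := j.2
      omega
    · exact h (inv_mul_eq_one.1 h2)

end Pool.Agent.PFE.H53
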