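import Pool.Agent.PFE.StmtsE2b

/-!
# Squad PFE, row ZSY: the centre of the local algebra lifts
-/

open scoped BigOperators

noncomputable section

namespace Pool.Agent.PFE.H53

open MulOpposite
open Pool.Agent.PFC.B1 (FS)
open Pool.Agent.PFD.D2

/-- the trace of a Frobenius system is central -/
theorem fs_central {R S I : Type} [CommRing R] [Ring S] [Algebra R S] [Fintype I] (f : FS R S I)
    (s a : S) : a * ∑ o, f.b o * s * f.b' o = (∑ o, f.b o * s * f.b' o) * a := by
  have h1 : ∀ o, a * (f.b o * s * f.b' o) =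
      ∑ o', f.lam (f.b' o' * a * f.b o) • (f.b o' * s * f.b' o) := by
    intro o
    have h2 := f.h1 (a * f.b o)
    calc a * (f.b o * s * f.b' o) = (a * f.b o) * (s * f.b' o) := by simp only [mul_assoc]
      _ = (∑ o', f.lam (f.b' o' * (a * f.b o)) • f.b o') * (s * f.b' o) := by rw [h2]
      _ = _ := by
        rw [Finset.sum_mul]
        refine Finset.sum_congr rfl fun o' _ => ?_
        rw [smul_mul_assoc, mul_assoc (f.b' o'), mul_assoc (f.b o')]
  have h3 : ∀ o', f.b o' * s * f.b' o' * a =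
      ∑ o, f.lam (f.b' o' * a * f.b o) • (f.b o' * s * f.b' o) := by
    intro o'
    have h4 := f.h2 (f.b' o' * a)
    calc f.b o' * s * f.b' o' * a = (f.b o' * s) * (f.b' o' * a) := by simp only [mul_assoc]
      _ = (f.b o' * s) * (∑ o, f.lam (f.b' o' * a * f.b o) • f.b' o) := by rw [h4]
      _ = _ := by
        rw [Finset.mul_sum]
        refine Finset.sum_congr rfl fun o _ => ?_
        rw [mul_smul_comm]
  rw [Finset.mul_sum, Finset.sum_mul, Finset.sum_congr rfl fun o _ => h1 o,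
    Finset.sum_congr rfl fun o _ => h3 o, Finset.sum_comm]

theorem zsy (tsv : TsvStmt) (wfx : WfxStmt) : ZsyStmt := by
  classical
  intro R F S S0 X Ω W _ _ _ _ c _ _ _ _ _ _ _ _ _ _ _ _ G E fs z0 hz0
  obtain ⟨s1, hs1⟩ := fs.surj z0
  have hπ : c.κ c.π = 0 := (c.ker c.π).2 ⟨1, (mul_one _).symm⟩
  have hqπ : ∀ t : S, fs.q (c.π • t) = 0 := by
    intro t
    rw [Algebra.smul_def, map_mul, fs.sc, hπ, map_zero, zero_mul]
  have hk : ∀ w, ∃ t, E.om w * s1 - s1 * E.om w = c.π • t := by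
    intro w
    refine fs.ker _ ?_
    rw [map_sub, map_mul, map_mul, hs1, hz0, sub_self]
  obtain ⟨s2, hs2, t2, ht2⟩ := wfx R S X Ω W G E c.π s1 hk
  have hq2 : fs.q s2 = z0 := by
    have h1 : s2 = s1 + c.π • t2 := by rw [← ht2]; abel
    rw [h1, map_add, hqπ, add_zero, hs1]
  obtain ⟨T, hT⟩ := tsv Ω W E.fo
  have hW : ((Fintype.card W : ℕ) : R) ≠ 0 := by
    rw [Ne, Nat.cast_eq_zero]
    exact Fintype.card_ne_zero
  have hsum : ∀ s : S, (∀ w, E.om w * s = s * E.om w) →
      ∑ o, E.f.b o * s * E.f.b' o = (Fintype.card W : R) • ∑ t ∈ T, E.f.b t * s * E.f.b' t := by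
    intro s hs
    rw [hT S (fun o => E.f.b o * s * E.f.b' o), Finset.smul_sum]
    refine Finset.sum_congr rfl fun t _ => ?_
    have h1 : ∀ w : W, E.f.b (((1, w) : W × W) • t) * s * E.f.b' (((1, w) : W × W) • t) =
        E.f.b t * s * E.f.b' t := by
      intro w
      rw [E.bw, E.bw']
      simp only [inv_one, map_one, one_mul, mul_one]
      have h2 : E.om w⁻¹ * s * E.om w = s := by
        rw [hs w⁻¹, mul_assoc, ← map_mul, inv_mul_cancel, map_one, mul_one]
      calc E.f.b t * E.om w⁻¹ * s * (E.om w * E.f.b' t)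
          = E.f.b t * (E.om w⁻¹ * s * E.om w) * E.f.b' t := by simp only [mul_assoc]
        _ = E.f.b t * s * E.f.b' t := by rw [h2]
    rw [Finset.sum_congr rfl fun w _ => h1 w, Finset.sum_const, Finset.card_univ, Nat.cast_smul_eq_nsmul]
  have hcen : ∀ s : S, (∀ w, E.om w * s = s * E.om w) →
      ∀ a, a * ∑ t ∈ T, E.f.b t * s * E.f.b' t = (∑ t ∈ T, E.f.b t * s * E.f.b' t) * a := by
    intro s hs a
    have h1 := fs_central E.f s a
    rw [hsum s hs, mul_smul_comm, smul_mul_assoc] at h1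
    exact smul_right_injective S hW h1
  have hr1 : ∑ t ∈ T, E.f.b t * 1 * E.f.b' t = E.rho := by
    have h1 := hsum 1 (fun w => by rw [mul_one, one_mul])
    have h2 := E.rr
    simp only [mul_one] at h1 ⊢
    rw [h2] at h1
    exact (smul_right_injective S hW h1).symm
  obtain ⟨u, hu⟩ := E.ru
  refine ⟨(∑ t ∈ T, E.f.b t * s2 * E.f.b' t) * (u⁻¹ : Sˣ), ?_, ?_⟩
  · intro s
    have h1 : (u : S) * s = s * u := by
      rw [hu]
      exact E.rc s
    have h2 : ((u⁻¹ : Sˣ) : S) * s = s * ((u⁻¹ : Sˣ) : S) := by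
      rw [Units.inv_mul_eq_iff_eq_mul, ← mul_assoc, h1, mul_assoc, Units.mul_inv, mul_one]
    rw [mul_assoc, h2, ← mul_assoc, ← hcen s2 hs2 s, mul_assoc]
  · have h3 : fs.q (∑ t ∈ T, E.f.b t * s2 * E.f.b' t) = z0 * fs.q E.rho := by
      rw [← hr1, map_sum, map_sum, Finset.mul_sum]
      refine Finset.sum_congr rfl fun t _ => ?_
      rw [map_mul, map_mul, hq2, mul_one, map_mul, ← hz0, mul_assoc]
    rw [map_mul, h3, mul_assoc, ← map_mul, ← hu, Units.mul_inv, map_one, mul_one]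

end Pool.Agent.PFE.H53
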